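import Mathlib
import Pool.Agent.MP_21a573_al.NoExtension

open scoped MatrixGroups

namespace Pool.Agent.Results.MP_21a573_al.PGL2Unipotent

open Pool.Agent.MP_21a573_al

/-- For every finite field `F` with `|F| = 1 mod 4`, the group `PGL_2` and the regular unipotent
class `O`, some function in `S_w` of the closure of `O` is not the restriction of a cuspidal
function on `PGL_2(F)`. -/
theorem result (F : Type*) [Field F] [Fintype F] (hq : Fintype.card F % 4 = 1) :
    ∃ f : classClosure F (regUnip (AlgebraicClosure F)) → ℂ,
      f ∈ weakSpace F (classClosure F (regUnip (AlgebraicClosure F))) ∧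
      f ∉ cuspSpace F (classClosure F (regUnip (AlgebraicClosure F))) := by
  classical
  have hF : ringChar F ≠ 2 := by
    intro h
    have := FiniteField.even_card_of_char_two h
    omega
  have hi : IsSquare (-1 : F) := FiniteField.isSquare_neg_one_iff.2 (by omega)
  exact ⟨_, twP_mem_weakSpace hF, twP_not_mem_cuspSpace hF hi⟩

end Pool.Agent.Results.MP_21a573_al.PGL2Unipotent
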