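import Mathlib
import Pool.Agent.MP_21a573_al.SL.Clos

open scoped MatrixGroups

namespace Pool.Agent.Results.MP_21a573_al.SL2Range

open Pool.Agent.MP_21a573_al.SL

/-- For the group `SL_2` over a finite field `F`, the equality `S_cusp = S_w` holds for the
closure of every conjugacy class if and only if `F` has at least four elements. -/
theorem result (F : Type*) [Field F] [Fintype F] :
    (∀ x : SL(2, AlgebraicClosure F),
      cuspSpace F (classClosure F x) = weakSpace F (classClosure F x)) ↔ 4 ≤ Fintype.card F := by
  classical
  constructor
  · intro h
    by_contra hq
    have h1 : 1 < Fintype.card F := Fintype.one_lt_card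
    have h2 : Fintype.card F = 2 ∨ Fintype.card F = 3 := by omega
    rcases h2 with h2 | h2
    · have := h (comp (algebraMap F (AlgebraicClosure F) 1))
      rw [classClosure_comp] at this
      exact fail_two h2 this
    · have := h (comp (algebraMap F (AlgebraicClosure F) 0))
      rw [classClosure_comp] at this
      exact fail_three h2 this
  · intro hq x
    apply Set.Subset.antisymm (cusp_subset_weak _)
    rcases classClosure_cases x with h | ⟨τ, h⟩
    · exact weak_subset_cusp (thin_of_subsingleton h) (conn_of_subsingleton h)
    · obtain ⟨r, hr⟩ : ∃ r : F, r ∉ ({0, 1, -1} : Finset F) := by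
        by_contra hh
        push Not at hh
        have h1 : (Finset.univ : Finset F).card ≤ ({0, 1, -1} : Finset F).card :=
          Finset.card_le_card fun a _ => hh a
        have h2 : ({0, 1, -1} : Finset F).card ≤ 3 := Finset.card_le_three
        rw [Finset.card_univ] at h1
        omega
      simp only [Finset.mem_insert, Finset.mem_singleton, not_or] at hr
      rw [h]
      exact weak_subset_cusp (thin_tr τ) (conn_tr τ hr.1 hr.2.1 hr.2.2)

end Pool.Agent.Results.MP_21a573_al.SL2Range
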